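import Pool.Agent.Q41.GT.Stm4

/-!
# Project GT (helper41): job L4, the normal form of a map with a marked periodic point
-/

set_option autoImplicit false

namespace Pool.Agent.Q68.GT

open Finset Polynomial
open Pool.Agent.W277.UH (ratP1 ratP1_some ratP1_some0 ratP1_none ratP1_none0 hev hc hev_smul
  hev_zero hev_eval hc_eval hc_aeval hc_coeff hc_degree)
open Pool.Agent.Q41.GT

section

variable {K : Type*} [Field K]

/-- the point with given homogeneous coordinates -/
noncomputable def ptp (V : K × K) : Option K := by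
  classical exact if V.2 = 0 then none else some (V.1 / V.2)

lemma ptp_none {V : K × K} (h : V.2 = 0) : ptp V = none := by
  unfold ptp
  exact if_pos h

lemma ptp_some {V : K × K} (h : V.2 ≠ 0) : ptp V = some (V.1 / V.2) := by
  unfold ptp
  exact if_neg h

lemma ptp_smul {t : K} (ht : t ≠ 0) (V : K × K) : ptp (t * V.1, t * V.2) = ptp V := by
  by_cases h : V.2 = 0
  · rw [ptp_none h, ptp_none]
    show t * V.2 = 0
    rw [h, mul_zero]
  · rw [ptp_some h, ptp_some (V := (t * V.1, t * V.2)) (mul_ne_zero ht h)]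
    show some (t * V.1 / (t * V.2)) = _
    rw [mul_div_mul_left _ _ ht]

lemma exists_ptp (y : Option K) : ∃ V : K × K, (V.1 ≠ 0 ∨ V.2 ≠ 0) ∧ ptp V = y := by
  cases y with
  | none => exact ⟨(1, 0), Or.inl one_ne_zero, ptp_none rfl⟩
  | some t =>
    refine ⟨(t, 1), Or.inr one_ne_zero, ?_⟩
    rw [ptp_some (V := (t, 1)) one_ne_zero]
    show some (t / 1) = some t
    rw [div_one]

lemma det_ne {V W : K × K} (hV : V.1 ≠ 0 ∨ V.2 ≠ 0) (hW : W.1 ≠ 0 ∨ W.2 ≠ 0)
    (h : ptp V ≠ ptp W) : V.1 * W.2 - V.2 * W.1 ≠ 0 := by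
  intro h0
  apply h
  by_cases h1 : V.2 = 0
  · have h2 : V.1 ≠ 0 := hV.resolve_right (fun hh => hh h1)
    have h3 : W.2 = 0 := by
      rw [h1, zero_mul, sub_zero] at h0
      exact (mul_eq_zero.mp h0).resolve_left h2
    rw [ptp_none h1, ptp_none h3]
  · by_cases h2 : W.2 = 0
    · have h3 : W.1 ≠ 0 := hW.resolve_right (fun hh => hh h2)
      rw [h2, mul_zero, zero_sub, neg_eq_zero] at h0
      exact absurd h0 (mul_ne_zero h1 h3)
    · rw [ptp_some h1, ptp_some h2]
      congr 1
      rw [div_eq_div_iff h1 h2]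
      linear_combination h0

lemma rat_ptp {d : ℕ} {p q : K[X]} (hp : p.natDegree ≤ d) (hq : q.natDegree ≤ d) {V : K × K}
    (hV : V.1 ≠ 0 ∨ V.2 ≠ 0) : ratP1 p q d (ptp V) = ptp (hev d p V, hev d q V) := by
  by_cases h : V.2 = 0
  · have h1 : V.1 ≠ 0 := hV.resolve_right (fun hh => hh h)
    have h2 : V = (V.1, 0) := Prod.ext rfl h
    have hpow : V.1 ^ d ≠ 0 := pow_ne_zero _ h1
    rw [ptp_none h]
    conv_rhs => rw [h2]
    rw [hev_zero, hev_zero]
    by_cases h3 : q.coeff d = 0
    · rw [ratP1_none0 _ _ _ h3, ptp_none]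
      show q.coeff d * V.1 ^ d = 0
      rw [h3, zero_mul]
    · rw [ratP1_none _ _ _ h3, ptp_some (V := (p.coeff d * V.1 ^ d, q.coeff d * V.1 ^ d))
        (mul_ne_zero h3 hpow)]
      show _ = some (p.coeff d * V.1 ^ d / (q.coeff d * V.1 ^ d))
      rw [mul_div_mul_right _ _ hpow]
  · have hpow : V.2 ^ d ≠ 0 := pow_ne_zero _ h
    rw [ptp_some h, hev_eval d p hp V h, hev_eval d q hq V h]
    by_cases h3 : q.eval (V.1 / V.2) = 0
    · rw [ratP1_some0 _ _ _ _ h3, ptp_none]
      show V.2 ^ d * q.eval (V.1 / V.2) = 0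
      rw [h3, mul_zero]
    · rw [ratP1_some _ _ _ _ h3, ptp_some (V := (V.2 ^ d * p.eval (V.1 / V.2),
        V.2 ^ d * q.eval (V.1 / V.2))) (mul_ne_zero hpow h3)]
      show _ = some (V.2 ^ d * p.eval (V.1 / V.2) / (V.2 ^ d * q.eval (V.1 / V.2)))
      rw [mul_div_mul_left _ _ hpow]

lemma lin_deg (a b : K) : (C a * X + C b).natDegree ≤ 1 := natDegree_linear_le

lemma hev_lin (a b : K) (V : K × K) : hev 1 (C a * X + C b) V = a * V.1 + b * V.2 := by
  unfold hev
  rw [Finset.sum_range_succ, Finset.sum_range_one]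
  have h1 : (C a * X + C b).coeff 0 = b := by simp
  have h2 : (C a * X + C b).coeff 1 = a := by simp
  rw [h1, h2]
  simp
  ring

lemma mob_ptp (a b c e : K) {V : K × K} (hV : V.1 ≠ 0 ∨ V.2 ≠ 0) :
    ratP1 (C a * X + C b) (C c * X + C e) 1 (ptp V) =
      ptp (a * V.1 + b * V.2, c * V.1 + e * V.2) := by
  rw [rat_ptp (lin_deg a b) (lin_deg c e) hV, hev_lin, hev_lin]

lemma img_ne {a b c e : K} (hdet : a * e - b * c ≠ 0) {u w : K} (h : u ≠ 0 ∨ w ≠ 0) :
    a * u + b * w ≠ 0 ∨ c * u + e * w ≠ 0 := by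
  by_contra hh
  push Not at hh
  obtain ⟨h1, h2⟩ := hh
  have h3 : (a * e - b * c) * u = 0 := by linear_combination e * h1 - b * h2
  have h4 : (a * e - b * c) * w = 0 := by linear_combination a * h2 - c * h1
  rcases h with h | h
  · exact h ((mul_eq_zero.mp h3).resolve_left hdet)
  · exact h ((mul_eq_zero.mp h4).resolve_left hdet)

lemma mob_inv {a b c e : K} (hdet : a * e - b * c ≠ 0) (y : Option K) :
    ratP1 (C e * X + C (-b)) (C (-c) * X + C a) 1 (ratP1 (C a * X + C b) (C c * X + C e) 1 y) =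
      y := by
  obtain ⟨V, hV, rfl⟩ := exists_ptp y
  rw [mob_ptp _ _ _ _ hV, mob_ptp _ _ _ _ (V := (a * V.1 + b * V.2, c * V.1 + e * V.2))
    (img_ne hdet hV), ← ptp_smul hdet V]
  congr 1
  refine Prod.ext ?_ ?_
  · show e * (a * V.1 + b * V.2) + -b * (c * V.1 + e * V.2) = (a * e - b * c) * V.1
    ring
  · show -c * (a * V.1 + b * V.2) + a * (c * V.1 + e * V.2) = (a * e - b * c) * V.2
    ring

/-- the composition of a form with a linear map -/
lemma hev_hc (d : ℕ) (A : K[X]) (a b c e : K) (V : K × K) :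
    hev d (hc d A (C a * X + C b) (C c * X + C e)) V =
      hev d A (a * V.1 + b * V.2, c * V.1 + e * V.2) := by
  have hdeg : (hc d A (C a * X + C b) (C c * X + C e)).natDegree ≤ d := by
    have := hc_degree d 1 A _ _ (lin_deg a b) (lin_deg c e)
    rwa [mul_one] at this
  by_cases h : V.2 = 0
  · have h2 : V = (V.1, 0) := Prod.ext rfl h
    have h1 := hc_coeff d 1 A _ _ (lin_deg a b) (lin_deg c e)
    have e1 : (C a * X + C b).coeff 1 = a := by simp
    have e2 : (C c * X + C e).coeff 1 = c := by simp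
    rw [mul_one, e1, e2] at h1
    rw [h2, hev_zero, h1, mul_comm, ← hev_smul]
    congr 1
    refine Prod.ext ?_ ?_
    · show V.1 * a = a * V.1 + b * 0
      ring
    · show V.1 * c = c * V.1 + e * 0
      ring
  · rw [hev_eval d _ hdeg V h, hc_eval, ← hev_smul]
    congr 1
    refine Prod.ext ?_ ?_
    · show V.2 * (C a * X + C b).eval (V.1 / V.2) = a * V.1 + b * V.2
      rw [eval_add, eval_mul, eval_C, eval_C, eval_X]
      field_simp
    · show V.2 * (C c * X + C e).eval (V.1 / V.2) = c * V.1 + e * V.2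
      rw [eval_add, eval_mul, eval_C, eval_C, eval_X]
      field_simp

lemma hev_comb (d : ℕ) (P Q : K[X]) (a b : K) (V : K × K) :
    hev d (C a * P + C b * Q) V = a * hev d P V + b * hev d Q V := by
  unfold hev
  rw [Finset.mul_sum, Finset.mul_sum, ← Finset.sum_add_distrib]
  refine Finset.sum_congr rfl fun i _ => ?_
  rw [coeff_add, coeff_C_mul, coeff_C_mul]
  ring

lemma common {d : ℕ} (hd : 1 ≤ d) {p q : K[X]} (hco : IsCoprime p q)
    (hmax : max p.natDegree q.natDegree = d) {V : K × K} (hV : V.1 ≠ 0 ∨ V.2 ≠ 0)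
    (h1 : hev d p V = 0) (h2 : hev d q V = 0) : False := by
  have hp : p.natDegree ≤ d := hmax ▸ le_max_left _ _
  have hq : q.natDegree ≤ d := hmax ▸ le_max_right _ _
  by_cases h : V.2 = 0
  · have h3 : V.1 ≠ 0 := hV.resolve_right (fun hh => hh h)
    have h4 : V = (V.1, 0) := Prod.ext rfl h
    rw [h4, hev_zero] at h1 h2
    have h5 := (mul_eq_zero.mp h1).resolve_right (pow_ne_zero _ h3)
    have h6 := (mul_eq_zero.mp h2).resolve_right (pow_ne_zero _ h3)
    rcases max_choice p.natDegree q.natDegree with h7 | h7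
    · rw [hmax] at h7
      rw [h7] at h5
      have h8 : p = 0 := leadingCoeff_eq_zero.mp h5
      rw [h8, natDegree_zero] at h7
      omega
    · rw [hmax] at h7
      rw [h7] at h6
      have h8 : q = 0 := leadingCoeff_eq_zero.mp h6
      rw [h8, natDegree_zero] at h7
      omega
  · rw [hev_eval d p hp V h] at h1
    rw [hev_eval d q hq V h] at h2
    have h5 := (mul_eq_zero.mp h1).resolve_left (pow_ne_zero _ h)
    have h6 := (mul_eq_zero.mp h2).resolve_left (pow_ne_zero _ h)
    obtain ⟨u, w, huw⟩ := hco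
    have h7 := congrArg (eval (V.1 / V.2)) huw
    rw [eval_add, eval_mul, eval_mul, h5, h6, mul_zero, mul_zero, add_zero, eval_one] at h7
    exact zero_ne_one h7

/-- the new numerator and denominator -/
noncomputable def cp (d : ℕ) (p q : K[X]) (a b c e x y : K) : K[X] :=
  C x * hc d p (C e * X + C (-b)) (C (-c) * X + C a) +
    C y * hc d q (C e * X + C (-b)) (C (-c) * X + C a)

lemma cp_hev (d : ℕ) (p q : K[X]) (a b c e x y : K) (V : K × K) :
    hev d (cp d p q a b c e x y) V =
      x * hev d p (e * V.1 + -b * V.2, -c * V.1 + a * V.2) +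
        y * hev d q (e * V.1 + -b * V.2, -c * V.1 + a * V.2) := by
  unfold cp
  rw [hev_comb, hev_hc, hev_hc]

lemma cp_deg (d : ℕ) (p q : K[X]) (a b c e x y : K) :
    (cp d p q a b c e x y).natDegree ≤ d := by
  have h1 : ∀ A : K[X], (hc d A (C e * X + C (-b)) (C (-c) * X + C a)).natDegree ≤ d := by
    intro A
    have := hc_degree d 1 A _ _ (lin_deg e (-b)) (lin_deg (-c) a)
    rwa [mul_one] at this
  unfold cp
  refine (natDegree_add_le _ _).trans (max_le ?_ ?_)
  · exact (natDegree_C_mul_le _ _).trans (h1 p)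
  · exact (natDegree_C_mul_le _ _).trans (h1 q)

lemma cp_coprime {d : ℕ} (hd : 1 ≤ d) {p q : K[X]} (hco : IsCoprime p q)
    (hmax : max p.natDegree q.natDegree = d) {a b c e : K} (hdet : a * e - b * c ≠ 0) :
    IsCoprime (cp d p q a b c e a b) (cp d p q a b c e c e) := by
  refine (isCoprime_iff_aeval_ne_zero_of_isAlgClosed (k := K) (AlgebraicClosure K) _ _).mpr ?_
  intro y
  by_contra hcon
  push Not at hcon
  obtain ⟨h1, h2⟩ := hcon
  unfold cp at h1 h2
  rw [map_add, map_mul, map_mul, hc_aeval, hc_aeval, aeval_C, aeval_C] at h1 h2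
  have e1 : aeval y (C e * X + C (-b) : Polynomial K) =
      algebraMap K (AlgebraicClosure K) e * y - algebraMap K (AlgebraicClosure K) b := by
    simp [sub_eq_add_neg]
  have e2 : aeval y (C (-c) * X + C a : Polynomial K) =
      -algebraMap K (AlgebraicClosure K) c * y + algebraMap K (AlgebraicClosure K) a := by simp
  rw [e1, e2] at h1 h2
  have hdet' : algebraMap K (AlgebraicClosure K) a * algebraMap K (AlgebraicClosure K) e -
      algebraMap K (AlgebraicClosure K) b * algebraMap K (AlgebraicClosure K) c ≠ 0 := by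
    rw [← map_mul, ← map_mul, ← map_sub]
    intro h
    exact hdet ((map_eq_zero _).mp h)
  set φ := algebraMap K (AlgebraicClosure K) with hφ
  have h3 : hev d (p.map φ) (φ e * y - φ b, -φ c * y + φ a) = 0 := by
    have : (φ a * φ e - φ b * φ c) * hev d (p.map φ) (φ e * y - φ b, -φ c * y + φ a) = 0 := by
      linear_combination φ e * h1 - φ b * h2
    exact (mul_eq_zero.mp this).resolve_left hdet'
  have h4 : hev d (q.map φ) (φ e * y - φ b, -φ c * y + φ a) = 0 := by
    have : (φ a * φ e - φ b * φ c) * hev d (q.map φ) (φ e * y - φ b, -φ c * y + φ a) = 0 := by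
      linear_combination φ a * h2 - φ c * h1
    exact (mul_eq_zero.mp this).resolve_left hdet'
  refine common hd (hco.map (mapRingHom φ)) ?_ ?_ h3 h4
  · show max (p.map φ).natDegree (q.map φ).natDegree = d
    rw [natDegree_map, natDegree_map, hmax]
  · show φ e * y - φ b ≠ 0 ∨ -φ c * y + φ a ≠ 0
    by_contra hh
    push Not at hh
    obtain ⟨h5, h6⟩ := hh
    apply hdet'
    linear_combination φ c * h5 + φ e * h6

lemma cp_max {d : ℕ} (hd : 1 ≤ d) {p q : K[X]} (hco : IsCoprime p q)
    (hmax : max p.natDegree q.natDegree = d) {a b c e : K} (hdet : a * e - b * c ≠ 0) :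
    max (cp d p q a b c e a b).natDegree (cp d p q a b c e c e).natDegree = d := by
  refine le_antisymm (max_le (cp_deg _ _ _ _ _ _ _ _ _) (cp_deg _ _ _ _ _ _ _ _ _)) ?_
  by_contra hlt
  rw [not_le, max_lt_iff] at hlt
  have h1 := cp_hev d p q a b c e a b (1, 0)
  have h2 := cp_hev d p q a b c e c e (1, 0)
  rw [hev_zero, coeff_eq_zero_of_natDegree_lt hlt.1, zero_mul] at h1
  rw [hev_zero, coeff_eq_zero_of_natDegree_lt hlt.2, zero_mul] at h2
  simp only [mul_one, mul_zero, add_zero] at h1 h2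
  have h3 : hev d p (e, -c) = 0 := by
    have : (a * e - b * c) * hev d p (e, -c) = 0 := by
      linear_combination (-e) * h1 + b * h2
    exact (mul_eq_zero.mp this).resolve_left hdet
  have h4 : hev d q (e, -c) = 0 := by
    have : (a * e - b * c) * hev d q (e, -c) = 0 := by
      linear_combination (-a) * h2 + c * h1
    exact (mul_eq_zero.mp this).resolve_left hdet
  refine common hd hco hmax ?_ h3 h4
  show e ≠ 0 ∨ -c ≠ 0
  by_contra hh
  push Not at hh
  obtain ⟨h5, h6⟩ := hh
  apply hdet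
  rw [h5, neg_eq_zero.mp h6]
  ring

/-- conjugation by a Moebius map -/
lemma cp_conj {d : ℕ} (hd : 1 ≤ d) {p q : K[X]} (hco : IsCoprime p q)
    (hmax : max p.natDegree q.natDegree = d) {a b c e : K} (hdet : a * e - b * c ≠ 0)
    (y : Option K) :
    ratP1 (C a * X + C b) (C c * X + C e) 1 (ratP1 p q d y) =
      ratP1 (cp d p q a b c e a b) (cp d p q a b c e c e) d
        (ratP1 (C a * X + C b) (C c * X + C e) 1 y) := by
  have hp : p.natDegree ≤ d := hmax ▸ le_max_left _ _
  have hq : q.natDegree ≤ d := hmax ▸ le_max_right _ _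
  obtain ⟨V, hV, rfl⟩ := exists_ptp y
  have hV' : hev d p V ≠ 0 ∨ hev d q V ≠ 0 := by
    by_contra hh
    push Not at hh
    exact common hd hco hmax hV hh.1 hh.2
  rw [rat_ptp hp hq hV, mob_ptp _ _ _ _ (V := (hev d p V, hev d q V)) hV', mob_ptp _ _ _ _ hV,
    rat_ptp (cp_deg _ _ _ _ _ _ _ _ _) (cp_deg _ _ _ _ _ _ _ _ _)
      (V := (a * V.1 + b * V.2, c * V.1 + e * V.2)) (img_ne hdet hV), cp_hev, cp_hev]
  have h1 : ((e * (a * V.1 + b * V.2) + -b * (c * V.1 + e * V.2),
      -c * (a * V.1 + b * V.2) + a * (c * V.1 + e * V.2)) : K × K) = (a * e - b * c) • V := by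
    refine Prod.ext ?_ ?_
    · show e * (a * V.1 + b * V.2) + -b * (c * V.1 + e * V.2) = (a * e - b * c) * V.1
      ring
    · show -c * (a * V.1 + b * V.2) + a * (c * V.1 + e * V.2) = (a * e - b * c) * V.2
      ring
  show ptp (a * hev d p V + b * hev d q V, c * hev d p V + e * hev d q V) =
    ptp (a * hev d p (e * (a * V.1 + b * V.2) + -b * (c * V.1 + e * V.2),
      -c * (a * V.1 + b * V.2) + a * (c * V.1 + e * V.2)) +
      b * hev d q (e * (a * V.1 + b * V.2) + -b * (c * V.1 + e * V.2),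
      -c * (a * V.1 + b * V.2) + a * (c * V.1 + e * V.2)),
      c * hev d p (e * (a * V.1 + b * V.2) + -b * (c * V.1 + e * V.2),
      -c * (a * V.1 + b * V.2) + a * (c * V.1 + e * V.2)) +
      e * hev d q (e * (a * V.1 + b * V.2) + -b * (c * V.1 + e * V.2),
      -c * (a * V.1 + b * V.2) + a * (c * V.1 + e * V.2)))
  rw [h1, hev_smul, hev_smul, ← ptp_smul (pow_ne_zero d hdet)
    (a * hev d p V + b * hev d q V, c * hev d p V + e * hev d q V)]
  congr 1
  refine Prod.ext ?_ ?_
  · show (a * e - b * c) ^ d * (a * hev d p V + b * hev d q V) =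
      a * ((a * e - b * c) ^ d * hev d p V) + b * ((a * e - b * c) ^ d * hev d q V)
    ring
  · show (a * e - b * c) ^ d * (c * hev d p V + e * hev d q V) =
      c * ((a * e - b * c) ^ d * hev d p V) + e * ((a * e - b * c) ^ d * hev d q V)
    ring

/-- three different points -/
lemma three {x y z : Option K} (h1 : x ≠ y) (h2 : x ≠ z) (h3 : y ≠ z) :
    ∃ a b c e : K, a * e - b * c ≠ 0 ∧
      ratP1 (C a * X + C b) (C c * X + C e) 1 x = none ∧
      ratP1 (C a * X + C b) (C c * X + C e) 1 y = some 0 ∧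
      ratP1 (C a * X + C b) (C c * X + C e) 1 z = some 1 := by
  obtain ⟨U, hU, rfl⟩ := exists_ptp x
  obtain ⟨V, hV, rfl⟩ := exists_ptp y
  obtain ⟨W, hW, rfl⟩ := exists_ptp z
  have d1 := det_ne hU hV h1
  have d2 := det_ne hU hW h2
  have d3 := det_ne hV hW h3
  set α := U.1 * W.2 - U.2 * W.1 with hα
  set β := V.1 * W.2 - V.2 * W.1 with hβ
  have hne : -(α * V.2) * (β * U.1) - α * V.1 * -(β * U.2) ≠ 0 := by
    have : -(α * V.2) * (β * U.1) - α * V.1 * -(β * U.2) =
        -(α * β * (U.1 * V.2 - U.2 * V.1)) := by ring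
    rw [this]
    exact neg_ne_zero.mpr (mul_ne_zero (mul_ne_zero d2 d3) d1)
  refine ⟨-(α * V.2), α * V.1, -(β * U.2), β * U.1, hne, ?_, ?_, ?_⟩
  · rw [mob_ptp _ _ _ _ hU, ptp_none]
    show -(β * U.2) * U.1 + β * U.1 * U.2 = 0
    ring
  · have e1 : -(β * U.2) * V.1 + β * U.1 * V.2 ≠ 0 := by
      have : -(β * U.2) * V.1 + β * U.1 * V.2 = β * (U.1 * V.2 - U.2 * V.1) := by ring
      rw [this]
      exact mul_ne_zero d3 d1
    have e2 : -(α * V.2) * V.1 + α * V.1 * V.2 = 0 := by ring
    rw [mob_ptp _ _ _ _ hV, ptp_some (V := (-(α * V.2) * V.1 + α * V.1 * V.2,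
      -(β * U.2) * V.1 + β * U.1 * V.2)) e1]
    show some ((-(α * V.2) * V.1 + α * V.1 * V.2) / (-(β * U.2) * V.1 + β * U.1 * V.2)) = some 0
    rw [e2, zero_div]
  · have e1 : -(β * U.2) * W.1 + β * U.1 * W.2 = β * α := by
      rw [hα]
      ring
    have e2 : -(α * V.2) * W.1 + α * V.1 * W.2 = β * α := by
      rw [hβ]
      ring
    rw [mob_ptp _ _ _ _ hW, e1, e2, ptp_some (V := (β * α, β * α)) (mul_ne_zero d3 d2)]
    show some (β * α / (β * α)) = some 1
    rw [div_self (mul_ne_zero d3 d2)]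

end

theorem nrm : S_nrm := by
  intro K _ d n p q hd hco hmax hn z hz
  constructor
  · have hinj := Function.iterate_injOn_Iio_minimalPeriod (f := ratP1 p q d) (x := z)
    rw [hz] at hinj
    have m0 : (0 : ℕ) ∈ Set.Iio n := Set.mem_Iio.mpr (by omega)
    have m1 : (1 : ℕ) ∈ Set.Iio n := Set.mem_Iio.mpr (by omega)
    have m2 : (2 : ℕ) ∈ Set.Iio n := Set.mem_Iio.mpr (by omega)
    have h01 : z ≠ ratP1 p q d z := fun h => absurd (hinj m0 m1 h) (by omega)
    have h02 : z ≠ ratP1 p q d (ratP1 p q d z) := fun h => absurd (hinj m0 m2 h) (by omega)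
    have h12 : ratP1 p q d z ≠ ratP1 p q d (ratP1 p q d z) :=
      fun h => absurd (hinj m1 m2 h) (by omega)
    obtain ⟨a, b, c, e, hdet, g0, g1, g2⟩ := three h01 h02 h12
    have hdet' : e * a - -b * -c ≠ 0 := by
      have : e * a - -b * -c = a * e - b * c := by ring
      rw [this]
      exact hdet
    have hinv2 : ∀ y, ratP1 (C a * X + C b) (C c * X + C e) 1
        (ratP1 (C e * X + C (-b)) (C (-c) * X + C a) 1 y) = y := by
      intro y
      have := mob_inv hdet' y
      rwa [neg_neg, neg_neg] at this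
    have hconj := cp_conj hd hco hmax hdet
    have hM : Function.Injective (ratP1 (C a * X + C b) (C c * X + C e) 1) :=
      Function.LeftInverse.injective (mob_inv hdet)
    refine ⟨cp d p q a b c e a b, cp d p q a b c e c e,
      ⟨ratP1 (C a * X + C b) (C c * X + C e) 1, ratP1 (C e * X + C (-b)) (C (-c) * X + C a) 1,
        mob_inv hdet, hinv2⟩, a, b, c, e, hdet, fun y => rfl, cp_coprime hd hco hmax hdet,
      cp_max hd hco hmax hdet, hconj, g0, ?_, ?_, ?_⟩
    · have := hconj z
      rw [g0, g1] at this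
      exact this.symm
    · have := hconj (ratP1 p q d z)
      rw [g1, g2] at this
      exact this.symm
    · rw [← hz]
      apply Function.minimalPeriod_eq_minimalPeriod_iff.mpr
      intro m
      have hs : Function.Semiconj (ratP1 (C a * X + C b) (C c * X + C e) 1) (ratP1 p q d)
          (ratP1 (cp d p q a b c e a b) (cp d p q a b c e c e) d) := hconj
      have h5 := (hs.iterate_right m).eq z
      rw [g0] at h5
      unfold Function.IsPeriodicPt Function.IsFixedPt
      rw [← h5]
      constructor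
      · intro h6
        apply hM
        rw [h6, g0]
      · intro h6
        rw [h6, g0]
  · intro a b c e hdet h0 h1 h2
    have hc : c = 0 := by
      by_contra hc
      have e1 : (C c * X + C e).coeff 1 = c := by simp
      rw [ratP1_none _ _ _ (by rw [e1]; exact hc)] at h0
      cases h0
    subst hc
    have he : e ≠ 0 := by
      rintro rfl
      apply hdet
      ring
    have e2 : ∀ t, (C 0 * X + C e).eval t = e := by
      intro t
      simp
    have hb : b = 0 := by
      rw [ratP1_some _ _ _ _ (by rw [e2]; exact he), e2] at h1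
      have h3 := Option.some_inj.mp h1
      rw [div_eq_zero_iff] at h3
      have h4 := h3.resolve_right he
      simpa using h4
    subst hb
    refine ⟨rfl, rfl, ?_⟩
    rw [ratP1_some _ _ _ _ (by rw [e2]; exact he), e2] at h2
    have h3 := Option.some_inj.mp h2
    rw [div_eq_one_iff_eq he] at h3
    simpa using h3

end Pool.Agent.Q68.GT
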